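import Pool.Agent.Run7.h116.T17

set_option autoImplicit false

/-!
# Menger curve manifolds: every closed set is the fixed point set of an involution
-/

open Set Topology

namespace Pool.Agent.Results.MP_202a65_gt.MengerCurveManifolds

/-- A `μ^n`-manifold: a separable metrizable space in which every point has a neighbourhood
homeomorphic to the universal Menger compactum `μ^n`. -/
def IsMengerManifold (n : ℕ) (M : Type*) [TopologicalSpace M] : Prop :=
  TopologicalSpace.MetrizableSpace M ∧ TopologicalSpace.SeparableSpace M ∧
    ∀ x : M, ∃ U ∈ 𝓝 x, Nonempty (U ≃ₜ Pool.Agent.Helper259.Menger.menger n)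

/-- Every closed subset of a `μ^1`-manifold, the empty set included, is the fixed point set of an
involution. -/
theorem result (M : Type*) [TopologicalSpace M] (hM : IsMengerManifold 1 M) (A : Set M)
    (hA : IsClosed A) :
    ∃ h : M ≃ₜ M, (∀ x, h (h x) = x) ∧ {x | h x = x} = A := by
  obtain ⟨h1, h2, h3⟩ := hM
  exact Run7.h116.main h3 hA

end Pool.Agent.Results.MP_202a65_gt.MengerCurveManifolds
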